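import Pool.Agent.Lib_helper53.BS.Defs

/-! Block WIE: a uniform form of Wiener's lemma. -/

set_option autoImplicit false

namespace Pool.Agent.BS

open Finset Filter MeasureTheory Topology
open scoped Classical

/-- the kernel -/
noncomputable def wie_K (n : ℕ) (z w : Circle) : ℝ :=
  ‖∑ t ∈ range n, ((z * w⁻¹ : Circle) : ℂ) ^ t‖ / n

theorem wie_K_nonneg (n : ℕ) (z w : Circle) : 0 ≤ wie_K n z w := by
  unfold wie_K
  positivity

theorem wie_K_le (n : ℕ) (z w : Circle) : wie_K n z w ≤ 1 := by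
  unfold wie_K
  refine div_le_one_of_le₀ ?_ (Nat.cast_nonneg n)
  refine (norm_sum_le _ _).trans ?_
  refine (Finset.sum_le_card_nsmul _ _ 1 fun t _ => ?_).trans ?_
  · rw [norm_pow, Circle.norm_coe, one_pow]
  · simp

theorem wie_K_cont (n : ℕ) (z : Circle) : Continuous fun w : Circle => wie_K n z w := by
  unfold wie_K
  fun_prop

theorem wie_K_cont' (n : ℕ) (w : Circle) : Continuous fun z : Circle => wie_K n z w := by
  unfold wie_K
  fun_prop

theorem wie_K_tendsto (z w : Circle) (h : z ≠ w) :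
    Tendsto (fun n => wie_K n z w) atTop (𝓝 0) := by
  have hu : ((z * w⁻¹ : Circle) : ℂ) ≠ 1 := by
    intro h1
    apply h
    have h2 : z * w⁻¹ = 1 := by
      apply Circle.ext
      rw [h1, Circle.coe_one]
    exact mul_inv_eq_one.1 h2
  have hu' : 0 < ‖((z * w⁻¹ : Circle) : ℂ) - 1‖ := norm_pos_iff.2 (sub_ne_zero.2 hu)
  have h1 : Tendsto (fun n : ℕ => 2 / ‖((z * w⁻¹ : Circle) : ℂ) - 1‖ / (n : ℝ)) atTop (𝓝 0) :=
    tendsto_const_div_atTop_nhds_zero_nat _
  refine squeeze_zero (fun n => wie_K_nonneg n z w) (fun n => ?_) h1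
  unfold wie_K
  refine div_le_div_of_nonneg_right ?_ (Nat.cast_nonneg n)
  rw [geom_sum_eq hu, norm_div]
  refine div_le_div_of_nonneg_right ?_ hu'.le
  refine (norm_sub_le _ _).trans ?_
  rw [norm_pow, Circle.norm_coe, one_pow, norm_one]
  norm_num

theorem wie_sum (n y : ℕ) (hn : 0 < n) (z w : Circle) :
    ‖∑ t ∈ Ioc y (y + n), (z : ℂ) ^ t * (starRingEnd ℂ) ((w : ℂ) ^ t)‖ = n * wie_K n z w := by
  have hn' : (n : ℝ) ≠ 0 := by positivity
  have e1 : ∀ t : ℕ, (z : ℂ) ^ t * (starRingEnd ℂ) ((w : ℂ) ^ t) =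
      ((z * w⁻¹ : Circle) : ℂ) ^ t := by
    intro t
    rw [map_pow, ← mul_pow, Circle.coe_mul, Circle.coe_inv_eq_conj]
  have e2 : Ioc y (y + n) = Ico (y + 1) (y + 1 + n) := by
    ext t
    simp only [Finset.mem_Ioc, Finset.mem_Ico]
    omega
  have e3 : ∑ t ∈ Ioc y (y + n), (z : ℂ) ^ t * (starRingEnd ℂ) ((w : ℂ) ^ t) =
      ((z * w⁻¹ : Circle) : ℂ) ^ (y + 1) * ∑ t ∈ range n, ((z * w⁻¹ : Circle) : ℂ) ^ t := by
    rw [e2, Finset.sum_Ico_eq_sum_range, Finset.mul_sum]
    have e4 : y + 1 + n - (y + 1) = n := by omega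
    rw [e4]
    refine Finset.sum_congr rfl fun t _ => ?_
    rw [e1, pow_add]
  rw [e3, norm_mul, norm_pow, Circle.norm_coe, one_pow, one_mul]
  unfold wie_K
  field_simp

theorem wie_int {f : Circle → ℂ} (ν : Measure Circle) [IsFiniteMeasure ν] (hf : Continuous f) :
    Integrable f ν := by
  obtain ⟨C, hC⟩ := (isCompact_univ (X := Circle)).exists_bound_of_continuousOn hf.continuousOn
  exact Integrable.of_bound hf.aestronglyMeasurable C
    (Eventually.of_forall fun x => hC x (Set.mem_univ x))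

theorem wie_intR {f : Circle → ℝ} (ν : Measure Circle) [IsFiniteMeasure ν] (hf : Continuous f) :
    Integrable f ν := by
  obtain ⟨C, hC⟩ := (isCompact_univ (X := Circle)).exists_bound_of_continuousOn hf.continuousOn
  exact Integrable.of_bound hf.aestronglyMeasurable C
    (Eventually.of_forall fun x => hC x (Set.mem_univ x))

theorem wie_K_meas (ν : Measure Circle) (n : ℕ) (z : Circle) :
    AEStronglyMeasurable (fun w => wie_K n z w) ν :=
  (wie_K_cont n z).aestronglyMeasurable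

theorem wie_g_cont (ν : Measure Circle) [IsFiniteMeasure ν] (n : ℕ) :
    Continuous fun z : Circle => ∫ w : Circle, wie_K n z w ∂ν := by
  refine continuous_of_dominated (bound := fun _ => (1 : ℝ)) ?_ ?_ (integrable_const 1) ?_
  · intro z
    exact wie_K_meas ν n z
  · intro z
    refine Eventually.of_forall fun w => ?_
    rw [Real.norm_of_nonneg (wie_K_nonneg n z w)]
    exact wie_K_le n z w
  · refine Eventually.of_forall fun w => ?_
    exact wie_K_cont' n w

theorem wie_g_tendsto (ν : Measure Circle) [IsFiniteMeasure ν] (hν : ∀ z : Circle, ν {z} = 0)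
    (z : Circle) : Tendsto (fun n : ℕ => ∫ w : Circle, wie_K n z w ∂ν) atTop (𝓝 0) := by
  have h := tendsto_integral_of_dominated_convergence (μ := ν) (F := fun n w => wie_K n z w)
    (f := fun _ => (0 : ℝ)) (fun _ => (1 : ℝ)) ?_ (integrable_const 1) ?_ ?_
  · simpa using h
  · intro n
    exact wie_K_meas ν n z
  · intro n
    refine Eventually.of_forall fun w => ?_
    rw [Real.norm_of_nonneg (wie_K_nonneg n z w)]
    exact wie_K_le n z w
  · have h1 : ∀ᵐ w ∂ν, w ≠ z := by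
      rw [ae_iff]
      simpa using hν z
    filter_upwards [h1] with w hw
    exact wie_K_tendsto z w (Ne.symm hw)

theorem wie_G_tendsto (ν : Measure Circle) [IsFiniteMeasure ν] (hν : ∀ z : Circle, ν {z} = 0) :
    Tendsto (fun n : ℕ => ∫ z : Circle, ∫ w : Circle, wie_K n z w ∂ν ∂ν) atTop (𝓝 0) := by
  have h := tendsto_integral_of_dominated_convergence (μ := ν)
    (F := fun n z => ∫ w : Circle, wie_K n z w ∂ν)
    (f := fun _ => (0 : ℝ)) (fun _ => ν.real Set.univ) ?_ (integrable_const _) ?_ ?_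
  · simpa using h
  · intro n
    exact (wie_g_cont ν n).aestronglyMeasurable
  · intro n
    refine Eventually.of_forall fun z => ?_
    have h1 := norm_integral_le_of_norm_le_const (μ := ν) (f := fun w => wie_K n z w) (C := 1)
      (Eventually.of_forall fun w => by
        rw [Real.norm_of_nonneg (wie_K_nonneg n z w)]
        exact wie_K_le n z w)
    simpa using h1
  · exact Eventually.of_forall fun z => wie_g_tendsto ν hν z

theorem wie_bound (ν : Measure Circle) [IsFiniteMeasure ν] (n y : ℕ) (hn : 0 < n) :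
    ∑ t ∈ Ioc y (y + n), ‖∫ z : Circle, (z : ℂ) ^ t ∂ν‖ ^ 2 ≤
      n * ∫ z : Circle, ∫ w : Circle, wie_K n z w ∂ν ∂ν := by
  have c1 : ∀ t : ℕ, Continuous fun z : Circle => (z : ℂ) ^ t := fun t => by fun_prop
  have c2 : ∀ t : ℕ, Continuous fun z : Circle => (starRingEnd ℂ) ((z : ℂ) ^ t) := fun t =>
    Complex.continuous_conj.comp (c1 t)
  have e1 : ((∑ t ∈ Ioc y (y + n), ‖∫ z : Circle, (z : ℂ) ^ t ∂ν‖ ^ 2 : ℝ) : ℂ) =
      ∫ z : Circle, ∫ w : Circle, ∑ t ∈ Ioc y (y + n),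
        (z : ℂ) ^ t * (starRingEnd ℂ) ((w : ℂ) ^ t) ∂ν ∂ν := by
    have e2 : ∀ z : Circle, ∫ w : Circle, ∑ t ∈ Ioc y (y + n),
        (z : ℂ) ^ t * (starRingEnd ℂ) ((w : ℂ) ^ t) ∂ν = ∑ t ∈ Ioc y (y + n),
        (z : ℂ) ^ t * (starRingEnd ℂ) (∫ w : Circle, (w : ℂ) ^ t ∂ν) := by
      intro z
      rw [integral_finsetSum _ fun t _ => (wie_int ν (c2 t)).const_mul _]
      refine Finset.sum_congr rfl fun t _ => ?_
      rw [integral_const_mul, integral_conj]
    simp only [e2]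
    rw [integral_finsetSum _ fun t _ => (wie_int ν (c1 t)).mul_const _]
    push_cast
    refine Finset.sum_congr rfl fun t _ => ?_
    rw [integral_mul_const, Complex.mul_conj']
  have hnn : 0 ≤ ∑ t ∈ Ioc y (y + n), ‖∫ z : Circle, (z : ℂ) ^ t ∂ν‖ ^ 2 :=
    Finset.sum_nonneg fun t _ => by positivity
  have e3 : ∑ t ∈ Ioc y (y + n), ‖∫ z : Circle, (z : ℂ) ^ t ∂ν‖ ^ 2 =
      ‖∫ z : Circle, ∫ w : Circle, ∑ t ∈ Ioc y (y + n),
        (z : ℂ) ^ t * (starRingEnd ℂ) ((w : ℂ) ^ t) ∂ν ∂ν‖ := by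
    rw [← e1, Complex.norm_real, Real.norm_of_nonneg hnn]
  rw [e3, ← integral_const_mul]
  refine norm_integral_le_of_norm_le ?_ (Eventually.of_forall fun z => ?_)
  · exact (wie_intR ν (wie_g_cont ν n)).const_mul _
  · rw [← integral_const_mul]
    refine norm_integral_le_of_norm_le ?_ (Eventually.of_forall fun w => ?_)
    · exact (wie_intR ν (wie_K_cont n z)).const_mul _
    · exact (wie_sum n y hn z w).le

/-- WIE -/
theorem wiener_pr (ν : Measure Circle) (hνf : IsFiniteMeasure ν) (hν : ∀ z : Circle, ν {z} = 0)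
    (ε : ℝ) (hε : 0 < ε) : ∃ L : ℕ, ∀ n ≥ L, ∀ y : ℕ,
      ∑ t ∈ Ioc y (y + n), ‖∫ z : Circle, (z : ℂ) ^ t ∂ν‖ ^ 2 ≤ ε * n := by
  have h1 := (wie_G_tendsto ν hν).eventually_lt_const hε
  obtain ⟨L, hL⟩ := eventually_atTop.1 h1
  refine ⟨L + 1, fun n hn y => ?_⟩
  have hn0 : 0 < n := by omega
  refine (wie_bound ν n y hn0).trans ?_
  rw [mul_comm ε]
  exact mul_le_mul_of_nonneg_left (hL n (by omega)).le (Nat.cast_nonneg n)

end Pool.Agent.BS
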